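import Mathlib

namespace Pool.Agent.Results.MP_15d263_co.AllPairs

open Set

/-- The Euclidean plane. -/
abbrev E := EuclideanSpace ℝ (Fin 2)

/-- The point of the plane with coordinates `a`, `b`. -/
noncomputable def pt (a b : ℝ) : E := !₂[a, b]

/-- The closed axis-parallel unit square centred at `c`. -/
def sq (c : E) : Set E := {p | |p 0 - c 0| ≤ 1 / 2 ∧ |p 1 - c 1| ≤ 1 / 2}

/-- The set `T(x,y)`: the union of the closed unit squares centred at `(0,0)` and `(x,y)`. -/
noncomputable def T (x y : ℤ) : Set E := sq (pt 0 0) ∪ sq (pt x y)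

/-- `𝒯` is a tiling of the plane: a countable collection of closed sets covering the plane, with
pairwise disjoint interiors. -/
structure IsTiling (𝒯 : Set (Set E)) : Prop where
  countable : 𝒯.Countable
  closed : ∀ A ∈ 𝒯, IsClosed A
  cover : ⋃₀ 𝒯 = univ
  disj : ∀ A ∈ 𝒯, ∀ B ∈ 𝒯, A ≠ B → Disjoint (interior A) (interior B)

/-- The isometry `g` of the plane is a symmetry of `𝒯`: it maps `𝒯` onto itself. -/
def IsSymm (𝒯 : Set (Set E)) (g : E ≃ᵢ E) : Prop := (fun A => g '' A) '' 𝒯 = 𝒯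

/-- Every member of `𝒯` is congruent to `P`. -/
def Monohedral (𝒯 : Set (Set E)) (P : Set E) : Prop := ∀ A ∈ 𝒯, ∃ g : E ≃ᵢ E, A = g '' P

/-- The symmetries of `𝒯` act transitively on its tiles. -/
def Isohedral (𝒯 : Set (Set E)) : Prop :=
  ∀ A ∈ 𝒯, ∀ B ∈ 𝒯, ∃ g : E ≃ᵢ E, IsSymm 𝒯 g ∧ g '' A = B

/-- `𝒯` is an idiomeric tiling with prototile `P`: a tiling by congruent copies of `P`, isohedral,
and for every tile `A` the symmetries of `𝒯` that map `A` onto itself act transitively on the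
connected components of `A`. -/
structure Idiomeric (𝒯 : Set (Set E)) (P : Set E) : Prop where
  tiling : IsTiling 𝒯
  mono : Monohedral 𝒯 P
  iso : Isohedral 𝒯
  trans : ∀ A ∈ 𝒯, ∀ p ∈ A, ∀ q ∈ A, ∃ g : E ≃ᵢ E, IsSymm 𝒯 g ∧ g '' A = A ∧
    g '' connectedComponentIn A p = connectedComponentIn A q

/-- Every tile of `𝒯` is the union of two squares of the regular tiling of the plane by unit
squares (the one whose square centres are the integer points). -/
def OnGrid (𝒯 : Set (Set E)) : Prop :=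
  ∀ A ∈ 𝒯, ∃ a b c d : ℤ, A = sq (pt a b) ∪ sq (pt c d)

/-! ### Basic facts on squares -/

@[simp] lemma pt_zero (a b : ℝ) : pt a b 0 = a := by simp [pt]
@[simp] lemma pt_one (a b : ℝ) : pt a b 1 = b := by simp [pt]

lemma ext2 {p q : E} (h0 : p 0 = q 0) (h1 : p 1 = q 1) : p = q := by
  ext i
  fin_cases i
  · exact h0
  · exact h1

lemma mem_sq {c p : E} : p ∈ sq c ↔ |p 0 - c 0| ≤ 1 / 2 ∧ |p 1 - c 1| ≤ 1 / 2 := Iff.rfl

lemma self_mem_sq (c : E) : c ∈ sq c := by
  rw [mem_sq]; simp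

lemma cont_coord (i : Fin 2) : Continuous (fun p : E => p i) := by fun_prop

lemma closed_sq (c : E) : IsClosed (sq c) := by
  have h : sq c = {p : E | |p 0 - c 0| ≤ 1 / 2} ∩ {p : E | |p 1 - c 1| ≤ 1 / 2} := rfl
  rw [h]
  apply IsClosed.inter
  · exact isClosed_le (by fun_prop) continuous_const
  · exact isClosed_le (by fun_prop) continuous_const

lemma convex_sq (c : E) : Convex ℝ (sq c) := by
  intro p hp q hq a b ha hb hab
  rw [mem_sq] at hp hq ⊢
  obtain ⟨hp0, hp1⟩ := hp
  obtain ⟨hq0, hq1⟩ := hq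
  rw [abs_le] at hp0 hp1 hq0 hq1
  have e0 : (a • p + b • q) 0 - c 0 = a * (p 0 - c 0) + b * (q 0 - c 0) := by
    simp only [PiLp.add_apply, PiLp.smul_apply, smul_eq_mul]
    have : c 0 = (a + b) * c 0 := by rw [hab, one_mul]
    linear_combination (-1 : ℝ) * this
  have e1 : (a • p + b • q) 1 - c 1 = a * (p 1 - c 1) + b * (q 1 - c 1) := by
    simp only [PiLp.add_apply, PiLp.smul_apply, smul_eq_mul]
    have : c 1 = (a + b) * c 1 := by rw [hab, one_mul]
    linear_combination (-1 : ℝ) * this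
  rw [e0, e1, abs_le, abs_le]
  have hb' : b = 1 - a := by linarith
  subst hb'
  constructor
  · constructor <;> nlinarith
  · constructor <;> nlinarith

lemma preconn_sq (c : E) : IsPreconnected (sq c) := (convex_sq c).isPreconnected

lemma mem_interior_sq (c : E) : c ∈ interior (sq c) := by
  have hopen : IsOpen {p : E | |p 0 - c 0| < 1 / 2 ∧ |p 1 - c 1| < 1 / 2} := by
    have h : {p : E | |p 0 - c 0| < 1 / 2 ∧ |p 1 - c 1| < 1 / 2}
      = {p : E | |p 0 - c 0| < 1 / 2} ∩ {p : E | |p 1 - c 1| < 1 / 2} := rfl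
    rw [h]
    apply IsOpen.inter
    · exact isOpen_lt (by fun_prop) continuous_const
    · exact isOpen_lt (by fun_prop) continuous_const
  have hsub : {p : E | |p 0 - c 0| < 1 / 2 ∧ |p 1 - c 1| < 1 / 2} ⊆ sq c := by
    intro p hp
    exact ⟨hp.1.le, hp.2.le⟩
  apply interior_maximal hsub hopen
  constructor <;> simp

lemma dist_sq2 (p q : E) : dist p q ^ 2 = (p 0 - q 0) ^ 2 + (p 1 - q 1) ^ 2 := by
  rw [EuclideanSpace.dist_eq, Real.sq_sqrt (by positivity)]
  simp [Fin.sum_univ_two, Real.dist_eq, sq_abs]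

lemma dist_pres (g : E ≃ᵢ E) (p q : E) :
    (g p 0 - g q 0) ^ 2 + (g p 1 - g q 1) ^ 2 = (p 0 - q 0) ^ 2 + (p 1 - q 1) ^ 2 := by
  rw [← dist_sq2, ← dist_sq2, g.dist_eq]

/-- an isometry mapping one square into another maps centre to centre -/
lemma centre_map (h : E ≃ᵢ E) (c e : E) (hs : h '' sq c ⊆ sq e) : h c = e := by
  set u : E := pt (c 0 + 1 / 2) (c 1 + 1 / 2) with hu
  set w : E := pt (c 0 - 1 / 2) (c 1 - 1 / 2) with hw
  have hum : u ∈ sq c := by
    rw [mem_sq]; simp only [hu, pt_zero, pt_one]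
    constructor <;> rw [abs_le] <;> constructor <;> linarith
  have hwm : w ∈ sq c := by
    rw [mem_sq]; simp only [hw, pt_zero, pt_one]
    constructor <;> rw [abs_le] <;> constructor <;> linarith
  have hu' := hs ⟨u, hum, rfl⟩
  have hw' := hs ⟨w, hwm, rfl⟩
  rw [mem_sq, abs_le, abs_le] at hu' hw'
  have hd := dist_pres h u w
  simp only [hu, hw, pt_zero, pt_one] at hd
  rw [← hu, ← hw] at hd
  obtain ⟨⟨a1, a2⟩, ⟨a3, a4⟩⟩ := hu'
  obtain ⟨⟨b1, b2⟩, ⟨b3, b4⟩⟩ := hw'
  have hd' : (h u 0 - h w 0) ^ 2 + (h u 1 - h w 1) ^ 2 = 2 := by rw [hd]; ring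
  have k0 : (h u 0 - h w 0) ^ 2 ≤ 1 := by nlinarith
  have k1 : (h u 1 - h w 1) ^ 2 ≤ 1 := by nlinarith
  have l0 : (h u 0 - h w 0) ^ 2 = 1 := by linarith
  have l1 : (h u 1 - h w 1) ^ 2 = 1 := by linarith
  have m0 : h u 0 + h w 0 = 2 * e 0 := by
    have : (h u 0 - h w 0 - 1) * (h u 0 - h w 0 + 1) = 0 := by nlinarith
    rcases mul_eq_zero.1 this with h' | h' <;> linarith
  have m1 : h u 1 + h w 1 = 2 * e 1 := by
    have : (h u 1 - h w 1 - 1) * (h u 1 - h w 1 + 1) = 0 := by nlinarith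
    rcases mul_eq_zero.1 this with h' | h' <;> linarith
  have hmid : midpoint ℝ u w = c := by
    rw [midpoint_eq_smul_add]
    apply ext2
    · simp only [PiLp.smul_apply, PiLp.add_apply, hu, hw, pt_zero, smul_eq_mul]
      norm_num
      ring
    · simp only [PiLp.smul_apply, PiLp.add_apply, hu, hw, pt_one, smul_eq_mul]
      norm_num
      ring
  have hmap := h.map_midpoint u w
  rw [hmid] at hmap
  rw [hmap, midpoint_eq_smul_add]
  apply ext2
  · simp only [PiLp.smul_apply, PiLp.add_apply, smul_eq_mul]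
    rw [m0]; norm_num; ring
  · simp only [PiLp.smul_apply, PiLp.add_apply, smul_eq_mul]
    rw [m1]; norm_num; ring

/-- an isometry carrying a union of two squares onto a union of two disjoint squares matches
the centres -/
lemma match2 (h : E ≃ᵢ E) (c d e f : E) (hdis : Disjoint (sq e) (sq f))
    (hA : h '' (sq c ∪ sq d) = sq e ∪ sq f) :
    (h c = e ∧ h d = f ∧ h '' sq c ⊆ sq e ∧ h '' sq d ⊆ sq f) ∨
    (h c = f ∧ h d = e ∧ h '' sq c ⊆ sq f ∧ h '' sq d ⊆ sq e) := by
  have key : ∀ z, h '' sq z ⊆ sq e ∪ sq f → h '' sq z ⊆ sq e ∨ h '' sq z ⊆ sq f := by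
    intro z hz
    have hp : IsPreconnected (h '' sq z) :=
      (preconn_sq z).image h h.continuous.continuousOn
    rw [isPreconnected_iff_subset_of_disjoint_closed] at hp
    have := hp (sq e) (sq f) (closed_sq e) (closed_sq f) hz
      (by rw [hdis.inter_eq, inter_empty])
    exact this
  have hc : h '' sq c ⊆ sq e ∪ sq f := by
    rw [← hA]; exact image_mono subset_union_left
  have hd : h '' sq d ⊆ sq e ∪ sq f := by
    rw [← hA]; exact image_mono subset_union_right
  have hne : ∀ z w : E, Disjoint (sq z) (sq w) → ¬ (sq z ∪ sq w ⊆ sq z) := by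
    intro z w hzw hsub
    have h1 : w ∈ sq z := hsub (Or.inr (self_mem_sq w))
    exact Set.disjoint_left.1 hzw h1 (self_mem_sq w)
  rcases key c hc with hc1 | hc1 <;> rcases key d hd with hd1 | hd1
  · exfalso
    apply hne e f hdis
    rw [← hA, image_union]
    exact union_subset hc1 hd1
  · left
    exact ⟨centre_map h c e hc1, centre_map h d f hd1, hc1, hd1⟩
  · right
    exact ⟨centre_map h c f hc1, centre_map h d e hd1, hc1, hd1⟩
  · exfalso
    apply hne f e hdis.symm
    rw [union_comm, ← hA, image_union]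
    exact union_subset hc1 hd1

lemma comp_left (c d : E) (hdis : Disjoint (sq c) (sq d)) (p : E) (hp : p ∈ sq c) :
    connectedComponentIn (sq c ∪ sq d) p = sq c := by
  apply Subset.antisymm
  · have hpre : IsPreconnected (connectedComponentIn (sq c ∪ sq d) p) :=
      isPreconnected_connectedComponentIn
    have hsub : connectedComponentIn (sq c ∪ sq d) p ⊆ sq c ∪ sq d :=
      connectedComponentIn_subset _ _
    have hmem : p ∈ connectedComponentIn (sq c ∪ sq d) p :=
      mem_connectedComponentIn (Or.inl hp)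
    rw [isPreconnected_iff_subset_of_disjoint_closed] at hpre
    rcases hpre (sq c) (sq d) (closed_sq c) (closed_sq d) hsub
      (by rw [hdis.inter_eq, inter_empty]) with h | h
    · exact h
    · exact absurd (h hmem) (Set.disjoint_left.1 hdis hp)
  · exact (preconn_sq c).subset_connectedComponentIn hp subset_union_left

lemma comp_right (c d : E) (hdis : Disjoint (sq c) (sq d)) (p : E) (hp : p ∈ sq d) :
    connectedComponentIn (sq c ∪ sq d) p = sq d := by
  rw [union_comm]
  exact comp_left d c hdis.symm p hp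

lemma disj_of_far (c d : E) (h : 1 < |c 0 - d 0| ∨ 1 < |c 1 - d 1|) :
    Disjoint (sq c) (sq d) := by
  rw [Set.disjoint_left]
  intro p hp hq
  rw [mem_sq] at hp hq
  rcases h with h | h
  · have : |c 0 - d 0| ≤ |p 0 - c 0| + |p 0 - d 0| := by
      have := abs_sub_le (c 0) (p 0) (d 0)
      rw [abs_sub_comm (c 0) (p 0)] at this
      exact this
    linarith [hp.1, hq.1]
  · have : |c 1 - d 1| ≤ |p 1 - c 1| + |p 1 - d 1| := by
      have := abs_sub_le (c 1) (p 1) (d 1)
      rw [abs_sub_comm (c 1) (p 1)] at this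
      exact this
    linarith [hp.2, hq.2]

lemma disj_T (x y : ℤ) (h : 2 ≤ max |x| |y|) : Disjoint (sq (pt 0 0)) (sq (pt x y)) := by
  apply disj_of_far
  rcases le_max_iff.1 h with h | h
  · left
    simp only [pt_zero, zero_sub, abs_neg]
    have : (2 : ℝ) ≤ |(x : ℝ)| := by exact_mod_cast h
    linarith
  · right
    simp only [pt_one, zero_sub, abs_neg]
    have : (2 : ℝ) ≤ |(y : ℝ)| := by exact_mod_cast h
    linarith

/-! ### Non-existence on the grid -/

lemma both_even (a b x y : ℤ) (hx : Even x) (hy : Even y) (h : a ^ 2 + b ^ 2 = x ^ 2 + y ^ 2) :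
    Even a ∧ Even b := by
  obtain ⟨x', rfl⟩ := hx
  obtain ⟨y', rfl⟩ := hy
  have h4 : (a ^ 2 + b ^ 2) % 4 = 0 := by
    rw [h]
    have : (x' + x') ^ 2 + (y' + y') ^ 2 = 4 * (x' ^ 2 + y' ^ 2) := by ring
    rw [this]
    simp
  rcases Int.even_or_odd' a with ⟨k, hk | hk⟩ <;> rcases Int.even_or_odd' b with ⟨l, hl | hl⟩
  · exact ⟨⟨k, by omega⟩, ⟨l, by omega⟩⟩
  · exfalso
    have : a ^ 2 + b ^ 2 = 4 * (k ^ 2 + l ^ 2 + l) + 1 := by rw [hk, hl]; ring
    omega
  · exfalso
    have : a ^ 2 + b ^ 2 = 4 * (k ^ 2 + l ^ 2 + k) + 1 := by rw [hk, hl]; ring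
    omega
  · exfalso
    have : a ^ 2 + b ^ 2 = 4 * (k ^ 2 + l ^ 2 + k + l) + 2 := by rw [hk, hl]; ring
    omega

/-- a point with integer coordinates lying in a grid square is its centre -/
lemma int_centre (a b i j : ℤ) (h : pt a b ∈ sq (pt i j)) : a = i ∧ b = j := by
  rw [mem_sq] at h
  simp only [pt_zero, pt_one] at h
  obtain ⟨h0, h1⟩ := h
  constructor
  · have : |((a - i : ℤ) : ℝ)| ≤ 1 / 2 := by push_cast; exact h0
    by_contra hne
    have h1 : 1 ≤ |a - i| := Int.one_le_abs (sub_ne_zero.2 hne)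
    have h2 : (1 : ℝ) ≤ |((a - i : ℤ) : ℝ)| := by exact_mod_cast h1
    linarith
  · have : |((b - j : ℤ) : ℝ)| ≤ 1 / 2 := by push_cast; exact h1
    by_contra hne
    have h1 : 1 ≤ |b - j| := Int.one_le_abs (sub_ne_zero.2 hne)
    have h2 : (1 : ℝ) ≤ |((b - j : ℤ) : ℝ)| := by exact_mod_cast h1
    linarith

lemma rigid_real (z0 z1 a b u v : ℝ) (g1 : z0 * a + z1 * b = 0) (g2 : z0 * u + z1 * v = 0)
    (hab : ¬ (a = 0 ∧ b = 0)) (hq : 2 * (u * a + v * b) = a ^ 2 + b ^ 2)
    (hm : ¬ (2 * u = a ∧ 2 * v = b)) : z0 = 0 ∧ z1 = 0 := by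
  have hdet : a * v - b * u ≠ 0 := by
    intro h0
    have hD : a ^ 2 + b ^ 2 ≠ 0 := by
      intro hle
      apply hab
      constructor
      · nlinarith [sq_nonneg a, sq_nonneg b]
      · nlinarith [sq_nonneg a, sq_nonneg b]
    have hw : ((2 * u - a) ^ 2 + (2 * v - b) ^ 2) * (a ^ 2 + b ^ 2) = 0 := by
      linear_combination ((2 * u - a) * a + (2 * v - b) * b) * hq
        + 2 * ((2 * v - b) * a - (2 * u - a) * b) * h0
    have hw' : (2 * u - a) ^ 2 + (2 * v - b) ^ 2 = 0 := by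
      rcases mul_eq_zero.1 hw with h | h
      · exact h
      · exact absurd h hD
    apply hm
    constructor
    · nlinarith [sq_nonneg (2 * u - a), sq_nonneg (2 * v - b)]
    · nlinarith [sq_nonneg (2 * u - a), sq_nonneg (2 * v - b)]
  have k0 : z0 * (a * v - b * u) = 0 := by linear_combination v * g1 - b * g2
  have k1 : z1 * (a * v - b * u) = 0 := by linear_combination a * g2 - u * g1
  constructor
  · rcases mul_eq_zero.1 k0 with h | h
    · exact h
    · exact absurd h hdet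
  · rcases mul_eq_zero.1 k1 with h | h
    · exact h
    · exact absurd h hdet

lemma rigid_real2 (k0 k1 p0 p1 c0 c1 d0 d1 f0 f1 : ℝ)
    (e1 : (k0 - c0) ^ 2 + (k1 - c1) ^ 2 = (p0 - c0) ^ 2 + (p1 - c1) ^ 2)
    (e2 : (k0 - d0) ^ 2 + (k1 - d1) ^ 2 = (p0 - d0) ^ 2 + (p1 - d1) ^ 2)
    (e3 : (k0 - f0) ^ 2 + (k1 - f1) ^ 2 = (p0 - f0) ^ 2 + (p1 - f1) ^ 2)
    (hcd : ¬ (c0 = d0 ∧ c1 = d1))
    (heq : (f0 - c0) ^ 2 + (f1 - c1) ^ 2 = (f0 - d0) ^ 2 + (f1 - d1) ^ 2)
    (hm : ¬ (f0 = (c0 + d0) / 2 ∧ f1 = (c1 + d1) / 2)) : k0 = p0 ∧ k1 = p1 := by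
  have := rigid_real (k0 - p0) (k1 - p1) (d0 - c0) (d1 - c1) (f0 - c0) (f1 - c1)
    (by linear_combination (1 / 2 : ℝ) * e1 - (1 / 2 : ℝ) * e2)
    (by linear_combination (1 / 2 : ℝ) * e1 - (1 / 2 : ℝ) * e3)
    (by rintro ⟨h0, h1⟩; exact hcd ⟨by linarith, by linarith⟩)
    (by linear_combination heq)
    (by rintro ⟨h0, h1⟩; exact hm ⟨by linarith, by linarith⟩)
  exact ⟨by linarith [this.1], by linarith [this.2]⟩

/-- an isometry fixing the two ends of a segment and a point off it, equidistant from the ends,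
is the identity -/
lemma rigid (k : E ≃ᵢ E) (c d f : E) (hc : k c = c) (hd : k d = d) (hf : k f = f)
    (hcd : c ≠ d) (heq : (f 0 - c 0) ^ 2 + (f 1 - c 1) ^ 2 = (f 0 - d 0) ^ 2 + (f 1 - d 1) ^ 2)
    (hm : ¬ (f 0 = (c 0 + d 0) / 2 ∧ f 1 = (c 1 + d 1) / 2)) (p : E) : k p = p := by
  have e1 := dist_pres k p c
  have e2 := dist_pres k p d
  have e3 := dist_pres k p f
  rw [hc] at e1
  rw [hd] at e2
  rw [hf] at e3
  have h := rigid_real2 _ _ _ _ _ _ _ _ _ _ e1 e2 e3
    (by rintro ⟨h0, h1⟩; exact hcd (ext2 h0 h1)) heq hm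
  exact ext2 h.1 h.2

lemma symm_maps {𝒯 : Set (Set E)} {g : E ≃ᵢ E} (h : IsSymm 𝒯 g) {A : Set E} (hA : A ∈ 𝒯) :
    g '' A ∈ 𝒯 := by
  have : g '' A ∈ (fun A => g '' A) '' 𝒯 := ⟨A, hA, rfl⟩
  rw [h] at this
  exact this

lemma symm_maps_inv {𝒯 : Set (Set E)} {g : E ≃ᵢ E} (h : IsSymm 𝒯 g) {A : Set E} (hA : A ∈ 𝒯) :
    g.symm '' A ∈ 𝒯 := by
  have : A ∈ (fun A => g '' A) '' 𝒯 := by rw [h]; exact hA
  obtain ⟨B, hB, rfl⟩ := this
  have : g.symm '' (g '' B) = B := by
    rw [← image_comp]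
    simp
  simp only
  rw [this]
  exact hB

theorem no_even (x y : ℤ) (hxy : 2 ≤ max |x| |y|) (hx : Even x) (hy : Even y)
    (𝒯 : Set (Set E)) (hI : Idiomeric 𝒯 (T x y)) (hG : OnGrid 𝒯) : False := by
  have hTd := disj_T x y hxy
  -- every tile consists of two disjoint grid squares with even difference of centres
  have tile : ∀ A ∈ 𝒯, ∀ a b c d : ℤ, A = sq (pt a b) ∪ sq (pt c d) →
      Disjoint (sq (pt a b)) (sq (pt c d)) ∧ Even (a - c) ∧ Even (b - d) := by
    intro A hA a b c d hAeq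
    obtain ⟨g, hg⟩ := hI.mono A hA
    have hinv : g.symm '' (sq (pt a b) ∪ sq (pt c d)) = sq (pt 0 0) ∪ sq (pt x y) := by
      rw [← hAeq, hg, ← image_comp]
      simp [T]
    have hdist := dist_pres g.symm (pt a b) (pt c d)
    rcases match2 g.symm _ _ _ _ hTd hinv with ⟨h1, h2, h3, h4⟩ | ⟨h1, h2, h3, h4⟩
    · refine ⟨?_, ?_⟩
      · rw [Set.disjoint_left]
        intro p hp hq
        exact Set.disjoint_left.1 hTd (h3 ⟨p, hp, rfl⟩) (h4 ⟨p, hq, rfl⟩)
      · rw [h1, h2] at hdist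
        simp only [pt_zero, pt_one] at hdist
        apply both_even _ _ x y hx hy
        have : (((a - c) ^ 2 + (b - d) ^ 2 : ℤ) : ℝ) = ((x ^ 2 + y ^ 2 : ℤ) : ℝ) := by
          push_cast; linarith
        exact_mod_cast this
    · refine ⟨?_, ?_⟩
      · rw [Set.disjoint_left]
        intro p hp hq
        exact Set.disjoint_left.1 hTd (h4 ⟨p, hq, rfl⟩) (h3 ⟨p, hp, rfl⟩)
      · rw [h1, h2] at hdist
        simp only [pt_zero, pt_one] at hdist
        apply both_even _ _ x y hx hy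
        have : (((a - c) ^ 2 + (b - d) ^ 2 : ℤ) : ℝ) = ((x ^ 2 + y ^ 2 : ℤ) : ℝ) := by
          push_cast; linarith
        exact_mod_cast this
  -- pick a tile
  have hne : (pt 0 0) ∈ ⋃₀ 𝒯 := by rw [hI.tiling.cover]; trivial
  obtain ⟨A, hA, -⟩ := hne
  obtain ⟨a, b, c, d, hAeq⟩ := hG A hA
  obtain ⟨hdA, ⟨k, hk⟩, ⟨l, hl⟩⟩ := tile A hA a b c d hAeq
  have hPQ : pt a b ≠ pt c d := by
    intro h
    rw [h] at hdA
    exact Set.disjoint_left.1 hdA (self_mem_sq _) (self_mem_sq _)
  -- the swapping symmetry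
  obtain ⟨g, hgs, hgA, hgc⟩ := hI.trans A hA (pt a b) (by rw [hAeq]; exact Or.inl (self_mem_sq _))
    (pt c d) (by rw [hAeq]; exact Or.inr (self_mem_sq _))
  rw [hAeq, comp_left _ _ hdA _ (self_mem_sq _), comp_right _ _ hdA _ (self_mem_sq _)] at hgc
  have hg1 : g (pt a b) = pt c d := centre_map g _ _ hgc.subset
  have hg2 : g (pt c d) = pt a b := by
    rw [hAeq] at hgA
    rcases match2 g _ _ _ _ hdA hgA with ⟨h1, -, -, -⟩ | ⟨-, h2, -, -⟩
    · exact absurd (hg1.symm.trans h1).symm hPQ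
    · exact h2
  -- the midpoint
  set m : E := pt ((c + k : ℤ) : ℝ) ((d + l : ℤ) : ℝ) with hm
  have ha : (a : ℝ) = c + k + k := by
    have : a = c + k + k := by omega
    rw [this]; push_cast; ring
  have hb : (b : ℝ) = d + l + l := by
    have : b = d + l + l := by omega
    rw [this]; push_cast; ring
  have hmid : midpoint ℝ (pt a b) (pt c d) = m := by
    rw [midpoint_eq_smul_add]
    apply ext2
    · simp only [PiLp.smul_apply, PiLp.add_apply, pt_zero, smul_eq_mul, hm, ha]
      push_cast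
      norm_num
      ring
    · simp only [PiLp.smul_apply, PiLp.add_apply, pt_one, smul_eq_mul, hm, hb]
      push_cast
      norm_num
      ring
  -- the tile containing the midpoint
  have hmem : m ∈ ⋃₀ 𝒯 := by rw [hI.tiling.cover]; trivial
  obtain ⟨B, hB, hmB⟩ := hmem
  have hBform : ∃ e f : ℤ, B = sq m ∪ sq (pt e f) := by
    obtain ⟨p, q, r, s, hBeq⟩ := hG B hB
    rw [hBeq] at hmB
    rcases hmB with h | h
    · obtain ⟨h1, h2⟩ := int_centre _ _ _ _ h
      refine ⟨r, s, ?_⟩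
      rw [hBeq, hm, h1, h2]
    · obtain ⟨h1, h2⟩ := int_centre _ _ _ _ h
      refine ⟨p, q, ?_⟩
      rw [hBeq, hm, h1, h2, union_comm]
  obtain ⟨e, f, hBeq⟩ := hBform
  set F : E := pt e f with hF
  obtain ⟨hdB, -, -⟩ := tile B hB _ _ e f hBeq
  rw [← hm, ← hF] at hdB
  have hmF : m ≠ F := by
    intro h
    rw [h] at hdB
    exact Set.disjoint_left.1 hdB (self_mem_sq _) (self_mem_sq _)
  -- a symmetry fixing m fixes F
  have fixF : ∀ t : E ≃ᵢ E, IsSymm 𝒯 t → t m = m → t F = F := by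
    intro t ht htm
    have hmi : m ∈ interior B := by
      rw [hBeq]; exact interior_mono subset_union_left (mem_interior_sq m)
    have hmi' : m ∈ interior (t '' B) := by
      have : t '' interior B = interior (t '' B) := t.toHomeomorph.image_interior B
      rw [← this]
      exact ⟨m, hmi, htm⟩
    have htB : t '' B = B := by
      by_contra hneq
      exact Set.disjoint_left.1 (hI.tiling.disj _ (symm_maps ht hB) _ hB hneq) hmi' hmi
    rw [hBeq] at htB
    rcases match2 t _ _ _ _ hdB htB with ⟨-, h2, -, -⟩ | ⟨h1, -, -, -⟩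
    · exact h2
    · exact absurd (htm.symm.trans h1) hmF
  have hgm : g m = m := by
    rw [← hmid, g.map_midpoint, hg1, hg2, midpoint_comm]
  have hgF : g F = F := fixF g hgs hgm
  -- a symmetry from A to B
  obtain ⟨t, hts, htAB⟩ := hI.iso A hA B hB
  set r : E ≃ᵢ E := t.trans (g.trans t.symm) with hr
  have hrs : IsSymm 𝒯 r := by
    apply Subset.antisymm
    · rintro _ ⟨C, hC, rfl⟩
      have h1 : t.symm '' (g '' (t '' C)) ∈ 𝒯 :=
        symm_maps_inv hts (symm_maps hgs (symm_maps hts hC))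
      have h2 : t.symm '' (g '' (t '' C)) = r '' C := by
        rw [hr, ← image_comp, ← image_comp]; rfl
      simp only
      rw [← h2]; exact h1
    · intro C hC
      refine ⟨t.symm '' (g.symm '' (t '' C)), ?_, ?_⟩
      · exact symm_maps_inv hts (symm_maps_inv hgs (symm_maps hts hC))
      · simp only
        rw [hr, ← image_comp, ← image_comp, ← image_comp]
        have : (((⇑(t.trans (g.trans t.symm)) ∘ ⇑t.symm) ∘ ⇑g.symm) ∘ ⇑t) = id := by
          funext p
          simp
        rw [this, image_id]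
  have hrP : r (pt a b) = pt a b ∧ r (pt c d) = pt c d := by
    rw [hAeq, hBeq] at htAB
    rcases match2 t _ _ _ _ hdB htAB with ⟨h1, h2, -, -⟩ | ⟨h1, h2, -, -⟩
    · constructor
      · show t.symm (g (t (pt a b))) = _
        rw [h1, hgm, ← h1]; simp
      · show t.symm (g (t (pt c d))) = _
        rw [h2, hgF, ← h2]; simp
    · constructor
      · show t.symm (g (t (pt a b))) = _
        rw [h1, hgF, ← h1]; simp
      · show t.symm (g (t (pt c d))) = _
        rw [h2, hgm, ← h2]; simp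
  have hrm : r m = m := by
    rw [← hmid, r.map_midpoint, hrP.1, hrP.2]
  have hrF : r F = F := fixF r hrs hrm
  -- F is equidistant
  have heq : (F 0 - (pt a b) 0) ^ 2 + (F 1 - (pt a b) 1) ^ 2
      = (F 0 - (pt c d) 0) ^ 2 + (F 1 - (pt c d) 1) ^ 2 := by
    have := dist_pres g F (pt a b)
    rw [hgF, hg1] at this
    exact this.symm
  have hid : ∀ p, r p = p := by
    apply rigid r (pt a b) (pt c d) F hrP.1 hrP.2 hrF hPQ heq
    rintro ⟨h0, h1⟩
    apply hmF
    apply ext2
    · rw [h0]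
      simp only [hm, pt_zero, ha]
      push_cast; ring
    · rw [h1]
      simp only [hm, pt_one, hb]
      push_cast; ring
  -- then g is the identity
  have hgid : ∀ p, g p = p := by
    intro p
    have := hid (t.symm p)
    have h2 : t.symm (g (t (t.symm p))) = t.symm p := this
    rw [t.apply_symm_apply] at h2
    exact t.symm.injective h2
  exact hPQ ((hgid (pt a b)).symm.trans hg1)

/-! ### Construction -/

/-- The centres of a tiling by unit squares in rows, consecutive rows shifted by `s`. -/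
noncomputable def Lam (s : ℝ) (i j : ℤ) : E := pt (i + s * j) j

/-- The tile made of the squares with indices `(i,j)` and `(i+a,j+b)`. -/
noncomputable def tl (s : ℝ) (a b i j : ℤ) : Set E := sq (Lam s i j) ∪ sq (Lam s (i + a) (j + b))

/-- The tiling: all tiles with `α i + β j` even. -/
def tls (s : ℝ) (a b α β : ℤ) : Set (Set E) :=
  {A | ∃ i j : ℤ, Even (α * i + β * j) ∧ A = tl s a b i j}

lemma Lam_add (s : ℝ) (i j k l : ℤ) : Lam s i j + Lam s k l = Lam s (i + k) (j + l) := by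
  apply ext2
  · simp only [Lam, PiLp.add_apply, pt_zero]; push_cast; ring
  · simp only [Lam, PiLp.add_apply, pt_one]; push_cast; ring

lemma Lam_sub (s : ℝ) (i j k l : ℤ) : Lam s i j - Lam s k l = Lam s (i - k) (j - l) := by
  apply ext2
  · simp only [Lam, PiLp.sub_apply, pt_zero]; push_cast; ring
  · simp only [Lam, PiLp.sub_apply, pt_one]; push_cast; ring

lemma img_add (v c : E) : (IsometryEquiv.addRight v) '' sq c = sq (c + v) := by
  ext p
  constructor
  · rintro ⟨q, hq, rfl⟩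
    rw [mem_sq] at hq ⊢
    simp only [IsometryEquiv.addRight_apply, PiLp.add_apply]
    rw [show q 0 + v 0 - (c 0 + v 0) = q 0 - c 0 by ring,
      show q 1 + v 1 - (c 1 + v 1) = q 1 - c 1 by ring]
    exact hq
  · intro hp
    refine ⟨p - v, ?_, ?_⟩
    · rw [mem_sq] at hp ⊢
      simp only [PiLp.sub_apply, PiLp.add_apply] at hp ⊢
      rw [show p 0 - v 0 - c 0 = p 0 - (c 0 + v 0) by ring,
        show p 1 - v 1 - c 1 = p 1 - (c 1 + v 1) by ring]
      exact hp
    · simp

lemma img_sub (v c : E) : (IsometryEquiv.subLeft v) '' sq c = sq (v - c) := by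
  have aux : ∀ q : E, q ∈ sq c → v - q ∈ sq (v - c) := by
    intro q hq
    rw [mem_sq] at hq ⊢
    simp only [PiLp.sub_apply]
    rw [show v 0 - q 0 - (v 0 - c 0) = -(q 0 - c 0) by ring,
      show v 1 - q 1 - (v 1 - c 1) = -(q 1 - c 1) by ring, abs_neg, abs_neg]
    exact hq
  ext p
  constructor
  · rintro ⟨q, hq, rfl⟩
    exact aux q hq
  · intro hp
    refine ⟨v - p, ?_, ?_⟩
    · rw [mem_sq] at hp ⊢
      simp only [PiLp.sub_apply] at hp ⊢
      rw [show v 0 - p 0 - c 0 = -(p 0 - (v 0 - c 0)) by ring,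
        show v 1 - p 1 - c 1 = -(p 1 - (v 1 - c 1)) by ring, abs_neg, abs_neg]
      exact hp
    · simp

lemma img_add_tl (s : ℝ) (a b i j k l : ℤ) :
    (IsometryEquiv.addRight (Lam s k l)) '' tl s a b i j = tl s a b (i + k) (j + l) := by
  rw [tl, image_union, img_add, img_add, Lam_add, Lam_add, tl]
  rw [show i + a + k = i + k + a by ring, show j + b + l = j + l + b by ring]

lemma img_sub_tl (s : ℝ) (a b i j k l : ℤ) :
    (IsometryEquiv.subLeft (Lam s (2 * i + a) (2 * j + b))) '' tl s a b k l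
      = tl s a b (2 * i - k) (2 * j - l) := by
  rw [tl, image_union, img_sub, img_sub, Lam_sub, Lam_sub, tl, union_comm]
  rw [show 2 * i + a - (k + a) = 2 * i - k by ring, show 2 * j + b - (l + b) = 2 * j - l by ring,
    show 2 * i + a - k = 2 * i - k + a by ring, show 2 * j + b - l = 2 * j - l + b by ring]

lemma line_empty (k : Fin 2) (c : ℝ) : interior {p : E | p k = c} = ∅ := by
  rw [eq_empty_iff_forall_notMem]
  intro p hp
  rw [mem_interior_iff_mem_nhds, Metric.mem_nhds_iff] at hp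
  obtain ⟨ε, hε, hb⟩ := hp
  have h0 : p k = c := hb (Metric.mem_ball_self hε)
  have h1 : p + EuclideanSpace.single k (ε / 2) ∈ Metric.ball p ε := by
    rw [Metric.mem_ball, dist_eq_norm, add_sub_cancel_left, PiLp.norm_single,
      Real.norm_eq_abs, abs_of_pos (by linarith)]
    linarith
  have h2 : (p + EuclideanSpace.single k (ε / 2)) k = c := hb h1
  rw [PiLp.add_apply, h0] at h2
  simp at h2
  linarith

lemma inter_line (s : ℝ) (i j k l : ℤ) (h : ¬ (i = k ∧ j = l)) :
    ∃ (m : Fin 2) (c : ℝ), sq (Lam s i j) ∩ sq (Lam s k l) ⊆ {p : E | p m = c} := by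
  by_cases hjl : j = l
  · subst hjl
    have hik : i ≠ k := fun h' => h ⟨h', rfl⟩
    rcases lt_or_gt_of_ne hik with hlt | hlt
    · refine ⟨0, i + s * j + 1 / 2, ?_⟩
      rintro p ⟨h1, h2⟩
      rw [mem_sq, abs_le, abs_le] at h1 h2
      simp only [Lam, pt_zero, pt_one] at h1 h2
      have : (i : ℝ) + 1 ≤ k := by exact_mod_cast hlt
      show p 0 = _
      linarith [h1.1.2, h2.1.1]
    · refine ⟨0, k + s * j + 1 / 2, ?_⟩
      rintro p ⟨h1, h2⟩
      rw [mem_sq, abs_le, abs_le] at h1 h2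
      simp only [Lam, pt_zero, pt_one] at h1 h2
      have : (k : ℝ) + 1 ≤ i := by exact_mod_cast hlt
      show p 0 = _
      linarith [h2.1.2, h1.1.1]
  · rcases lt_or_gt_of_ne hjl with hlt | hlt
    · refine ⟨1, j + 1 / 2, ?_⟩
      rintro p ⟨h1, h2⟩
      rw [mem_sq, abs_le, abs_le] at h1 h2
      simp only [Lam, pt_zero, pt_one] at h1 h2
      have : (j : ℝ) + 1 ≤ l := by exact_mod_cast hlt
      show p 1 = _
      linarith [h1.2.2, h2.2.1]
    · refine ⟨1, l + 1 / 2, ?_⟩
      rintro p ⟨h1, h2⟩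
      rw [mem_sq, abs_le, abs_le] at h1 h2
      simp only [Lam, pt_zero, pt_one] at h1 h2
      have : (l : ℝ) + 1 ≤ j := by exact_mod_cast hlt
      show p 1 = _
      linarith [h2.2.2, h1.2.1]

lemma inter_empty_int (s : ℝ) (i j k l : ℤ) (h : ¬ (i = k ∧ j = l)) :
    interior (sq (Lam s i j) ∩ sq (Lam s k l)) = ∅ := by
  obtain ⟨m, c, hs⟩ := inter_line s i j k l h
  rw [← subset_empty_iff, ← line_empty m c]
  exact interior_mono hs

lemma union_int_empty (A B : Set E) (hA : IsClosed A) (h1 : interior A = ∅)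
    (h2 : interior B = ∅) : interior (A ∪ B) = ∅ := by
  rw [interior_union_isClosed_of_interior_empty hA h2, h1]

lemma tl_disj (s : ℝ) (a b i j k l : ℤ) (h1 : ¬ (i = k ∧ j = l))
    (h2 : ¬ (i = k + a ∧ j = l + b)) (h3 : ¬ (i + a = k ∧ j + b = l)) :
    Disjoint (interior (tl s a b i j)) (interior (tl s a b k l)) := by
  rw [Set.disjoint_iff_inter_eq_empty, ← interior_inter]
  have : tl s a b i j ∩ tl s a b k l =
      ((sq (Lam s i j) ∩ sq (Lam s k l)) ∪ (sq (Lam s i j) ∩ sq (Lam s (k + a) (l + b)))) ∪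
      ((sq (Lam s (i + a) (j + b)) ∩ sq (Lam s k l)) ∪
        (sq (Lam s (i + a) (j + b)) ∩ sq (Lam s (k + a) (l + b)))) := by
    rw [tl, tl, union_inter_distrib_right, inter_union_distrib_left, inter_union_distrib_left]
  rw [this]
  have c1 : ∀ u v : E, IsClosed (sq u ∩ sq v) := fun u v => (closed_sq u).inter (closed_sq v)
  apply union_int_empty _ _ ((c1 _ _).union (c1 _ _))
  · apply union_int_empty _ _ (c1 _ _)
    · exact inter_empty_int s _ _ _ _ h1
    · exact inter_empty_int s _ _ _ _ h2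
  · apply union_int_empty _ _ (c1 _ _)
    · exact inter_empty_int s _ _ _ _ h3
    · exact inter_empty_int s _ _ _ _ (by rintro ⟨h, h'⟩; exact h1 ⟨by omega, by omega⟩)

lemma tls_tiling (s : ℝ) (a b α β : ℤ) (ho : Odd (α * a + β * b)) :
    IsTiling (tls s a b α β) := by
  refine ⟨?_, ?_, ?_, ?_⟩
  · apply (countable_range (fun p : ℤ × ℤ => tl s a b p.1 p.2)).mono
    rintro A ⟨i, j, -, rfl⟩
    exact ⟨(i, j), rfl⟩
  · rintro A ⟨i, j, -, rfl⟩
    exact (closed_sq _).union (closed_sq _)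
  · rw [eq_univ_iff_forall]
    intro p
    set j : ℤ := round (p 1) with hj
    set i : ℤ := round (p 0 - s * j) with hi
    have hp : p ∈ sq (Lam s i j) := by
      rw [mem_sq]
      simp only [Lam, pt_zero, pt_one]
      constructor
      · have := abs_sub_round (p 0 - s * j)
        rw [← hi] at this
        rw [show p 0 - (i + s * j) = p 0 - s * j - i by ring]
        exact this
      · have := abs_sub_round (p 1)
        rw [← hj] at this
        exact this
    by_cases he : Even (α * i + β * j)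
    · exact ⟨tl s a b i j, ⟨i, j, he, rfl⟩, Or.inl hp⟩
    · rw [Int.not_even_iff_odd] at he
      refine ⟨tl s a b (i - a) (j - b), ⟨i - a, j - b, ?_, rfl⟩, Or.inr ?_⟩
      · have : α * (i - a) + β * (j - b) = (α * i + β * j) - (α * a + β * b) := by ring
        rw [this]
        exact he.sub_odd ho
      · rw [sub_add_cancel, sub_add_cancel]; exact hp
  · rintro A ⟨i, j, he, rfl⟩ B ⟨k, l, he', rfl⟩ hne
    have hoe : ∀ i j k l : ℤ, Even (α * i + β * j) → Even (α * k + β * l) →
        ¬ (i = k + a ∧ j = l + b) := by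
      rintro i j k l h1 h2 ⟨rfl, rfl⟩
      have : α * (k + a) + β * (l + b) = (α * k + β * l) + (α * a + β * b) := by ring
      rw [this] at h1
      exact (Int.not_even_iff_odd.2 (h2.add_odd ho)) h1
    apply tl_disj
    · rintro ⟨rfl, rfl⟩; exact hne rfl
    · exact hoe i j k l he he'
    · rintro ⟨h1, h2⟩
      exact hoe k l i j he' he ⟨h1.symm, h2.symm⟩

lemma symm_add (s : ℝ) (a b α β k l : ℤ) (he : Even (α * k + β * l)) :
    IsSymm (tls s a b α β) (IsometryEquiv.addRight (Lam s k l)) := by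
  apply Subset.antisymm
  · rintro _ ⟨_, ⟨i, j, hij, rfl⟩, rfl⟩
    refine ⟨i + k, j + l, ?_, img_add_tl s a b i j k l⟩
    have : α * (i + k) + β * (j + l) = (α * i + β * j) + (α * k + β * l) := by ring
    rw [this]; exact hij.add he
  · rintro _ ⟨i, j, hij, rfl⟩
    refine ⟨tl s a b (i - k) (j - l), ⟨i - k, j - l, ?_, rfl⟩, ?_⟩
    · have : α * (i - k) + β * (j - l) = (α * i + β * j) - (α * k + β * l) := by ring
      rw [this]; exact hij.sub he
    · show (IsometryEquiv.addRight (Lam s k l)) '' tl s a b (i - k) (j - l) = _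
      rw [img_add_tl, sub_add_cancel, sub_add_cancel]

lemma symm_sub (s : ℝ) (a b α β i j : ℤ) :
    IsSymm (tls s a b α β) (IsometryEquiv.subLeft (Lam s (2 * i + a) (2 * j + b))) := by
  apply Subset.antisymm
  · rintro _ ⟨_, ⟨k, l, hkl, rfl⟩, rfl⟩
    refine ⟨2 * i - k, 2 * j - l, ?_, img_sub_tl s a b i j k l⟩
    have : α * (2 * i - k) + β * (2 * j - l) = 2 * (α * i + β * j) - (α * k + β * l) := by ring
    rw [this]; exact (even_two_mul _).sub hkl
  · rintro _ ⟨k, l, hkl, rfl⟩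
    refine ⟨tl s a b (2 * i - k) (2 * j - l), ⟨2 * i - k, 2 * j - l, ?_, rfl⟩, ?_⟩
    · have : α * (2 * i - k) + β * (2 * j - l) = 2 * (α * i + β * j) - (α * k + β * l) := by ring
      rw [this]; exact (even_two_mul _).sub hkl
    · show (IsometryEquiv.subLeft (Lam s (2 * i + a) (2 * j + b))) '' _ = _
      rw [img_sub_tl, sub_sub_cancel, sub_sub_cancel]

lemma img_refl (A : Set E) : (IsometryEquiv.refl E) '' A = A := by
  ext p
  constructor
  · rintro ⟨q, hq, rfl⟩; exact hq
  · intro hp; exact ⟨p, hp, rfl⟩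

lemma symm_refl (𝒯 : Set (Set E)) : IsSymm 𝒯 (IsometryEquiv.refl E) := by
  apply Subset.antisymm
  · rintro _ ⟨A, hA, rfl⟩
    simp only
    rw [img_refl]; exact hA
  · intro A hA
    exact ⟨A, hA, img_refl A⟩

theorem build (s : ℝ) (a b α β : ℤ) (ho : Odd (α * a + β * b))
    (hfar : 1 < |(a : ℝ) + s * b| ∨ 1 < |(b : ℝ)|) (P : Set E)
    (hP : ∀ i j : ℤ, ∃ g : E ≃ᵢ E, tl s a b i j = g '' P) :
    Idiomeric (tls s a b α β) P := by
  refine ⟨tls_tiling s a b α β ho, ?_, ?_, ?_⟩
  · rintro A ⟨i, j, -, rfl⟩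
    exact hP i j
  · rintro A ⟨i, j, he, rfl⟩ B ⟨k, l, he', rfl⟩
    refine ⟨IsometryEquiv.addRight (Lam s (k - i) (l - j)), symm_add s a b α β _ _ ?_, ?_⟩
    · have : α * (k - i) + β * (l - j) = (α * k + β * l) - (α * i + β * j) := by ring
      rw [this]; exact he'.sub he
    · rw [img_add_tl, add_sub_cancel, add_sub_cancel]
  · rintro A ⟨i, j, he, rfl⟩ p hp q hq
    have hd : Disjoint (sq (Lam s i j)) (sq (Lam s (i + a) (j + b))) := by
      apply disj_of_far
      rcases hfar with h | h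
      · left
        simp only [Lam, pt_zero]
        rw [show (i : ℝ) + s * j - (((i + a : ℤ) : ℝ) + s * ((j + b : ℤ) : ℝ)) = -(a + s * b) by
          push_cast; ring, abs_neg]
        exact h
      · right
        simp only [Lam, pt_one]
        rw [show (j : ℝ) - ((j + b : ℤ) : ℝ) = -b by push_cast; ring, abs_neg]
        exact h
    have hswap : (IsometryEquiv.subLeft (Lam s (2 * i + a) (2 * j + b))) '' tl s a b i j
        = tl s a b i j := by
      rw [img_sub_tl, show 2 * i - i = i by ring, show 2 * j - j = j by ring]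
    have hs1 : (IsometryEquiv.subLeft (Lam s (2 * i + a) (2 * j + b))) '' sq (Lam s i j)
        = sq (Lam s (i + a) (j + b)) := by
      rw [img_sub, Lam_sub, show 2 * i + a - i = i + a by ring,
        show 2 * j + b - j = j + b by ring]
    have hs2 : (IsometryEquiv.subLeft (Lam s (2 * i + a) (2 * j + b))) ''
        sq (Lam s (i + a) (j + b)) = sq (Lam s i j) := by
      rw [img_sub, Lam_sub, show 2 * i + a - (i + a) = i by ring,
        show 2 * j + b - (j + b) = j by ring]
    rcases hp with hp | hp <;> rcases hq with hq | hq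
    · refine ⟨IsometryEquiv.refl E, symm_refl _, img_refl _, ?_⟩
      rw [tl, comp_left _ _ hd p hp, comp_left _ _ hd q hq]
      exact img_refl _
    · refine ⟨_, symm_sub s a b α β i j, hswap, ?_⟩
      rw [tl, comp_left _ _ hd p hp, comp_right _ _ hd q hq, hs1]
    · refine ⟨_, symm_sub s a b α β i j, hswap, ?_⟩
      rw [tl, comp_right _ _ hd p hp, comp_left _ _ hd q hq, hs2]
    · refine ⟨IsometryEquiv.refl E, symm_refl _, img_refl _, ?_⟩
      rw [tl, comp_right _ _ hd p hp, comp_right _ _ hd q hq]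
      exact img_refl _

lemma far_of (x y : ℤ) (h : 2 ≤ max |x| |y|) : 1 < |(x : ℝ)| ∨ 1 < |(y : ℝ)| := by
  rcases le_max_iff.1 h with h | h
  · left
    have : (2 : ℝ) ≤ |(x : ℝ)| := by exact_mod_cast h
    linarith
  · right
    have : (2 : ℝ) ≤ |(y : ℝ)| := by exact_mod_cast h
    linarith

lemma tl_trans (s : ℝ) (a b x y i j : ℤ) (hx : (a : ℝ) + s * b = x) (hy : b = y) :
    tl s a b i j = (IsometryEquiv.addRight (Lam s i j)) '' T x y := by
  rw [T, image_union, img_add, img_add, tl]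
  congr 2
  · apply ext2
    · simp [PiLp.add_apply]
    · simp [PiLp.add_apply]
  · apply ext2
    · simp only [PiLp.add_apply, Lam, pt_zero]; push_cast; linarith
    · simp only [PiLp.add_apply, Lam, pt_one, hy]; push_cast; ring

/-- exchange of the two coordinates -/
noncomputable def swp : E ≃ᵢ E :=
  (LinearIsometryEquiv.piLpCongrLeft 2 ℝ ℝ (Equiv.swap (0 : Fin 2) 1)).toIsometryEquiv

lemma swp_zero (p : E) : swp p 0 = p 1 := by
  simp [swp, LinearIsometryEquiv.piLpCongrLeft_apply, Equiv.piCongrLeft', Equiv.swap_apply_def]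

lemma swp_one (p : E) : swp p 1 = p 0 := by
  simp [swp, LinearIsometryEquiv.piLpCongrLeft_apply, Equiv.piCongrLeft', Equiv.swap_apply_def]

lemma img_swp (c : E) : swp '' sq c = sq (pt (c 1) (c 0)) := by
  ext p
  constructor
  · rintro ⟨q, hq, rfl⟩
    rw [mem_sq] at hq ⊢
    rw [swp_zero, swp_one, pt_zero, pt_one]
    exact ⟨hq.2, hq.1⟩
  · intro hp
    refine ⟨swp p, ?_, ?_⟩
    · rw [mem_sq] at hp ⊢
      rw [pt_zero, pt_one] at hp
      rw [swp_zero, swp_one]
      exact ⟨hp.2, hp.1⟩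
    · apply ext2
      · rw [swp_zero, swp_one]
      · rw [swp_one, swp_zero]

lemma T_swap (x y : ℤ) : T y x = swp '' T x y := by
  rw [T, T, image_union, img_swp, img_swp]
  simp

theorem exists_grid (x y : ℤ) (h : 2 ≤ max |x| |y|) (ho : Odd x ∨ Odd y) :
    ∃ 𝒯, Idiomeric 𝒯 (T x y) ∧ OnGrid 𝒯 := by
  have key : ∀ α β : ℤ, Odd (α * x + β * y) → ∃ 𝒯, Idiomeric 𝒯 (T x y) ∧ OnGrid 𝒯 := by
    intro α β hab
    refine ⟨tls 0 x y α β, build 0 x y α β hab (by simpa using far_of x y h) _ ?_, ?_⟩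
    · intro i j
      exact ⟨_, tl_trans 0 x y x y i j (by simp) rfl⟩
    · rintro A ⟨i, j, -, rfl⟩
      refine ⟨i, j, i + x, j + y, ?_⟩
      simp [tl, Lam]
  rcases ho with ho | ho
  · exact key 1 0 (by simpa using ho)
  · exact key 0 1 (by simpa using ho)

theorem exists_all (x y : ℤ) (h : 2 ≤ max |x| |y|) : ∃ 𝒯, Idiomeric 𝒯 (T x y) := by
  by_cases ho : Odd x ∨ Odd y
  · obtain ⟨𝒯, h1, -⟩ := exists_grid x y h ho
    exact ⟨𝒯, h1⟩
  · push Not at ho
    obtain ⟨hx, hy⟩ := ho
    rw [Int.not_odd_iff_even] at hx hy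
    by_cases hy0 : y = 0
    · -- shift by 1/x, tile placed upright
      subst hy0
      have hx0 : x ≠ 0 := by
        rintro rfl
        simp at h
      have hxr : (x : ℝ) ≠ 0 := by exact_mod_cast hx0
      refine ⟨tls (1 / x) (-1) x 1 0, build (1 / x) (-1) x 1 0 (by norm_num) ?_ _ ?_⟩
      · right
        rcases far_of x 0 h with h' | h'
        · exact h'
        · simp at h'; linarith
      · intro i j
        refine ⟨swp.trans (IsometryEquiv.addRight (Lam (1 / x) i j)), ?_⟩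
        rw [tl_trans (1 / x) (-1) x 0 x i j (by push_cast; field_simp; ring) rfl, T_swap x 0]
        rw [← image_comp]
        rfl
    · have hyr : (y : ℝ) ≠ 0 := by exact_mod_cast hy0
      refine ⟨tls (1 / y) (x - 1) y 1 0, build (1 / y) (x - 1) y 1 0 ?_ ?_ _ ?_⟩
      · have : (1 : ℤ) * (x - 1) + 0 * y = x - 1 := by ring
        rw [this]
        exact hx.sub_odd odd_one
      · have e : (((x - 1 : ℤ) : ℝ) + 1 / (y : ℝ) * y) = x := by
          push_cast; field_simp; ring
        rw [e]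
        exact far_of x y h
      · intro i j
        exact ⟨_, tl_trans (1 / y) (x - 1) y x y i j (by push_cast; field_simp; ring) rfl⟩

/-- **Main theorem.** Let `max(|x|,|y|) ≥ 2`.
(1) Among all tilings of the plane: every `T(x,y)` admits an idiomeric tiling.
(2) Among the tilings whose tiles are unions of two squares of the regular tiling: `T(x,y)`
admits an idiomeric tiling if and only if `x` or `y` is odd. -/
theorem result :
    (∀ x y : ℤ, 2 ≤ max |x| |y| → ∃ 𝒯 : Set (Set E), Idiomeric 𝒯 (T x y)) ∧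
    (∀ x y : ℤ, 2 ≤ max |x| |y| →
      ((∃ 𝒯 : Set (Set E), Idiomeric 𝒯 (T x y) ∧ OnGrid 𝒯) ↔ (Odd x ∨ Odd y))) := by
  refine ⟨exists_all, fun x y h => ⟨?_, exists_grid x y h⟩⟩
  rintro ⟨𝒯, hI, hG⟩
  by_contra ho
  push Not at ho
  rw [Int.not_odd_iff_even, Int.not_odd_iff_even] at ho
  exact no_even x y h ho.1 ho.2 𝒯 hI hG

end Pool.Agent.Results.MP_15d263_co.AllPairs
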